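import Pool.Agent.Helper17.IAN.StN

set_option autoImplicit false

namespace Pool.Agent.Helper7.IAN

open Finset Pool.Agent.Helper93.IA Pool.Agent.Helper17.IAN

private lemma exp_diff (u v : ℝ) (hu : 0 ≤ u) : Real.exp (-u) - Real.exp (-(u + v)) ≤ |v| := by
  have h1 : Real.exp (-(u + v)) = Real.exp (-u) * Real.exp (-v) := by
    rw [← Real.exp_add]
    congr 1
    ring
  have h2 : 1 - v ≤ Real.exp (-v) := by
    have := Real.add_one_le_exp (-v)
    linarith
  have h3 : Real.exp (-u) ≤ 1 := Real.exp_le_one_iff.2 (by linarith)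
  have h4 : 0 < Real.exp (-u) := Real.exp_pos _
  have h5 : v ≤ |v| := le_abs_self v
  have h6 : 0 ≤ |v| := abs_nonneg v
  rw [h1]
  have h7 : Real.exp (-u) * (1 - |v|) ≤ Real.exp (-u) * Real.exp (-v) :=
    mul_le_mul_of_nonneg_left (by linarith) h4.le
  have h8 : Real.exp (-u) * |v| ≤ 1 * |v| := mul_le_mul_of_nonneg_right h3 h6
  nlinarith

private lemma one_sub_ge (y : ℝ) (h0 : 0 ≤ y) (h1 : y ≤ 1 / 2) :
    Real.exp (-(y + y ^ 2)) ≤ 1 - y := by
  have hz : 0 ≤ y + y ^ 2 := by positivity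
  have h2 : 1 + (y + y ^ 2) + (y + y ^ 2) ^ 2 / 2 ≤ Real.exp (y + y ^ 2) :=
    Real.quadratic_le_exp_of_nonneg hz
  have h3 : 0 < Real.exp (y + y ^ 2) := Real.exp_pos _
  have h5 : y ^ 2 ≤ 1 / 4 := by nlinarith
  have h6 : y ^ 3 ≤ 1 / 8 := by nlinarith [sq_nonneg y]
  have h4 : 1 ≤ (1 - y) * (1 + (y + y ^ 2) + (y + y ^ 2) ^ 2 / 2) := by
    have e : (1 - y) * (1 + (y + y ^ 2) + (y + y ^ 2) ^ 2 / 2) =
      1 + y ^ 2 * (1 - y - y ^ 2 - y ^ 3) / 2 := by ring
    rw [e]
    have : 0 ≤ y ^ 2 * (1 - y - y ^ 2 - y ^ 3) :=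
      mul_nonneg (sq_nonneg y) (by linarith)
    linarith
  have h7 : 1 ≤ (1 - y) * Real.exp (y + y ^ 2) :=
    h4.trans (mul_le_mul_of_nonneg_left h2 (by linarith))
  rw [Real.exp_neg]
  rw [inv_eq_one_div, div_le_iff₀ h3]
  exact h7

theorem hEXB : StEXB := by
  intro ι J y s ε θ hθ0 hθ hs hε hy hS hS'
  set S := ∑ j ∈ J, y j with hSdef
  have hS0 : 0 ≤ S := Finset.sum_nonneg fun j hj => (hy j hj).1
  have hθs : 0 ≤ θ * s := mul_nonneg hθ0 hs
  rw [abs_le]
  constructor
  · -- lower bound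
    have h1 : Real.exp (-(s + θ * s)) ≤ ∏ j ∈ J, (1 - y j) := by
      calc Real.exp (-(s + θ * s)) ≤ Real.exp (∑ j ∈ J, -(y j + y j ^ 2)) := by
            refine Real.exp_le_exp.2 ?_
            rw [Finset.sum_neg_distrib, Finset.sum_add_distrib]
            have h2 : ∑ j ∈ J, y j ^ 2 ≤ θ * S := by
              rw [hSdef, Finset.mul_sum]
              refine Finset.sum_le_sum fun j hj => ?_
              have := hy j hj
              nlinarith
            have h3 : θ * S ≤ θ * s := mul_le_mul_of_nonneg_left hS hθ0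
            linarith
        _ = ∏ j ∈ J, Real.exp (-(y j + y j ^ 2)) := Real.exp_sum _ _
        _ ≤ ∏ j ∈ J, (1 - y j) := by
            refine Finset.prod_le_prod (fun j _ => (Real.exp_pos _).le) fun j hj => ?_
            exact one_sub_ge (y j) (hy j hj).1 ((hy j hj).2.trans hθ)
    have h2 := exp_diff s (θ * s) hs
    rw [abs_of_nonneg hθs] at h2
    linarith
  · have h1 : ∏ j ∈ J, (1 - y j) ≤ Real.exp (-S) := by
      calc ∏ j ∈ J, (1 - y j) ≤ ∏ j ∈ J, Real.exp (-(y j)) := by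
            refine Finset.prod_le_prod (fun j hj => ?_) fun j hj => ?_
            · have := hy j hj
              linarith
            · have := Real.add_one_le_exp (-(y j))
              linarith
        _ = Real.exp (∑ j ∈ J, -(y j)) := (Real.exp_sum _ _).symm
        _ = Real.exp (-S) := by rw [Finset.sum_neg_distrib]
    have h2 := exp_diff S (s - S) hS0
    have e : S + (s - S) = s := by ring
    rw [e, abs_of_nonneg (by linarith)] at h2
    linarith

end Pool.Agent.Helper7.IAN
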